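import Pool.Agent.Lib.MP_4d22c1_co.Cov
import Pool.Agent.Lib.MP_4d22c1_co.Cert.D00
import Pool.Agent.Lib.MP_4d22c1_co.Cert.D01
import Pool.Agent.Lib.MP_4d22c1_co.Cert.D02
import Pool.Agent.Lib.MP_4d22c1_co.Cert.D03
import Pool.Agent.Lib.MP_4d22c1_co.Cert.D04
import Pool.Agent.Lib.MP_4d22c1_co.Cert.D05
import Pool.Agent.Lib.MP_4d22c1_co.Cert.D06
import Pool.Agent.Lib.MP_4d22c1_co.Cert.D07
import Pool.Agent.Lib.MP_4d22c1_co.Cert.D08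
import Pool.Agent.Lib.MP_4d22c1_co.Cert.D09
import Pool.Agent.Lib.MP_4d22c1_co.Cert.D10
import Pool.Agent.Lib.MP_4d22c1_co.Cert.D11
import Pool.Agent.Lib.MP_4d22c1_co.Cert.D12
import Pool.Agent.Lib.MP_4d22c1_co.Cert.D13
import Pool.Agent.Lib.MP_4d22c1_co.Cert.D14
import Pool.Agent.Lib.MP_4d22c1_co.Cert.D15
import Pool.Agent.Lib.MP_4d22c1_co.Cert.D16
import Pool.Agent.Lib.MP_4d22c1_co.Cert.D17
import Pool.Agent.Lib.MP_4d22c1_co.Cert.D18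
import Pool.Agent.Lib.MP_4d22c1_co.Cert.D19
import Pool.Agent.Lib.MP_4d22c1_co.Cert.D20
import Pool.Agent.Lib.MP_4d22c1_co.Cert.D21
import Pool.Agent.Lib.MP_4d22c1_co.Cert.D22
import Pool.Agent.Lib.MP_4d22c1_co.Cert.D23
import Pool.Agent.Lib.MP_4d22c1_co.Cert.D24
import Pool.Agent.Lib.MP_4d22c1_co.Cert.D25
import Pool.Agent.Lib.MP_4d22c1_co.Cert.D26
import Pool.Agent.Lib.MP_4d22c1_co.Cert.D27
import Pool.Agent.Lib.MP_4d22c1_co.Cert.D28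
import Pool.Agent.Lib.MP_4d22c1_co.Cert.D29
import Pool.Agent.Lib.MP_4d22c1_co.Cert.D30
import Pool.Agent.Lib.MP_4d22c1_co.Cert.D31

/-!
The pieces cover the whole certificate of each group. This file is generated.
-/

set_option deprecated.oldSectionVars true

namespace Pool.Agent.Lib.MP_4d22c1_co.Chk

theorem g2x2x2cov : Cov1 g2x2x2 g2x2x2top 4096 :=
  Cov1.zero
  |>.add (Cov2.zero |>.add g2x2x2p0)

theorem g2x2x3cov : Cov1 g2x2x3 g2x2x3top 4096 :=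
  Cov1.zero
  |>.add (Cov2.zero |>.add g2x2x3p0)

theorem g2x2x4cov : Cov1 g2x2x4 g2x2x4top 4096 :=
  Cov1.zero
  |>.add (Cov2.zero |>.add g2x2x4p0)
  |>.add (Cov2.zero |>.add g2x2x4p1)
  |>.add (Cov2.zero |>.add g2x2x4p2)
  |>.add (Cov2.zero |>.add g2x2x4p3)
  |>.add (Cov2.zero |>.add g2x2x4p4)

theorem g2x2x5cov : Cov1 g2x2x5 g2x2x5top 4096 :=
  Cov1.zero
  |>.add (Cov2.zero |>.add g2x2x5p0)
  |>.add (Cov2.zero |>.add g2x2x5p1)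
  |>.add (Cov2.zero |>.add g2x2x5p2)
  |>.add (Cov2.zero |>.add g2x2x5p3 |>.add g2x2x5p4 |>.add g2x2x5p5 |>.add g2x2x5p6)
  |>.add (Cov2.zero |>.add g2x2x5p7)
  |>.add (Cov2.zero |>.add g2x2x5p8)
  |>.add (Cov2.zero |>.add g2x2x5p9)
  |>.add (Cov2.zero |>.add g2x2x5p10)
  |>.add (Cov2.zero |>.add g2x2x5p11)
  |>.add (Cov2.zero |>.add g2x2x5p12 |>.add g2x2x5p13 |>.add g2x2x5p14)
  |>.add (Cov2.zero |>.add g2x2x5p15)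
  |>.add (Cov2.zero |>.add g2x2x5p16)
  |>.add (Cov2.zero |>.add g2x2x5p17 |>.add g2x2x5p18)
  |>.add (Cov2.zero |>.add g2x2x5p19)

theorem g2x2x6cov : Cov1 g2x2x6 g2x2x6top 4096 :=
  Cov1.zero
  |>.add (Cov2.zero |>.add g2x2x6p0)
  |>.add (Cov2.zero |>.add g2x2x6p1 |>.add g2x2x6p2)
  |>.add (Cov2.zero |>.add g2x2x6p3)
  |>.add (Cov2.zero |>.add g2x2x6p4 |>.add g2x2x6p5 |>.add g2x2x6p6)
  |>.add (Cov2.zero |>.add g2x2x6p7)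
  |>.add (Cov2.zero |>.add g2x2x6p8 |>.add g2x2x6p9 |>.add g2x2x6p10 |>.add g2x2x6p11)
  |>.add (Cov2.zero |>.add g2x2x6p12)
  |>.add (Cov2.zero |>.add g2x2x6p13)
  |>.add (Cov2.zero |>.add g2x2x6p14)
  |>.add (Cov2.zero |>.add g2x2x6p15)
  |>.add (Cov2.zero |>.add g2x2x6p16 |>.add g2x2x6p17 |>.add g2x2x6p18)
  |>.add (Cov2.zero |>.add g2x2x6p19)
  |>.add (Cov2.zero |>.add g2x2x6p20 |>.add g2x2x6p21 |>.add g2x2x6p22)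
  |>.add (Cov2.zero |>.add g2x2x6p23)

theorem g2x2x7cov : Cov1 g2x2x7 g2x2x7top 4096 :=
  Cov1.zero
  |>.add (Cov2.zero |>.add g2x2x7p0)
  |>.add (Cov2.zero |>.add g2x2x7p1 |>.add g2x2x7p2 |>.add g2x2x7p3)
  |>.add (Cov2.zero |>.add g2x2x7p4 |>.add g2x2x7p5 |>.add g2x2x7p6 |>.add g2x2x7p7)
  |>.add (Cov2.zero |>.add g2x2x7p8)
  |>.add (Cov2.zero |>.add g2x2x7p9 |>.add g2x2x7p10 |>.add g2x2x7p11)
  |>.add (Cov2.zero |>.add g2x2x7p12 |>.add g2x2x7p13)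
  |>.add (Cov2.zero |>.add g2x2x7p14)
  |>.add (Cov2.zero |>.add g2x2x7p15 |>.add g2x2x7p16)
  |>.add (Cov2.zero |>.add g2x2x7p17 |>.add g2x2x7p18 |>.add g2x2x7p19)
  |>.add (Cov2.zero |>.add g2x2x7p20 |>.add g2x2x7p21 |>.add g2x2x7p22 |>.add g2x2x7p23)
  |>.add (Cov2.zero |>.add g2x2x7p24 |>.add g2x2x7p25 |>.add g2x2x7p26 |>.add g2x2x7p27)
  |>.add (Cov2.zero |>.add g2x2x7p28)
  |>.add (Cov2.zero |>.add g2x2x7p29)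
  |>.add (Cov2.zero |>.add g2x2x7p30 |>.add g2x2x7p31 |>.add g2x2x7p32)
  |>.add (Cov2.zero |>.add g2x2x7p33)
  |>.add (Cov2.zero |>.add g2x2x7p34 |>.add g2x2x7p35 |>.add g2x2x7p36)
  |>.add (Cov2.zero |>.add g2x2x7p37)
  |>.add (Cov2.zero |>.add g2x2x7p38)
  |>.add (Cov2.zero |>.add g2x2x7p39 |>.add g2x2x7p40 |>.add g2x2x7p41)
  |>.add (Cov2.zero |>.add g2x2x7p42)

theorem g2x2x8cov : Cov1 g2x2x8 g2x2x8top 4096 :=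
  Cov1.zero
  |>.add (Cov2.zero |>.add g2x2x8p0)
  |>.add (Cov2.zero |>.add g2x2x8p1)
  |>.add (Cov2.zero |>.add g2x2x8p2 |>.add g2x2x8p3 |>.add g2x2x8p4 |>.add g2x2x8p5)
  |>.add (Cov2.zero |>.add g2x2x8p6)
  |>.add (Cov2.zero |>.add g2x2x8p7 |>.add g2x2x8p8 |>.add g2x2x8p9 |>.add g2x2x8p10 |>.add g2x2x8p11)
  |>.add (Cov2.zero |>.add g2x2x8p12)
  |>.add (Cov2.zero |>.add g2x2x8p13 |>.add g2x2x8p14)
  |>.add (Cov2.zero |>.add g2x2x8p15)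
  |>.add (Cov2.zero |>.add g2x2x8p16 |>.add g2x2x8p17 |>.add g2x2x8p18 |>.add g2x2x8p19 |>.add g2x2x8p20)
  |>.add (Cov2.zero |>.add g2x2x8p21)
  |>.add (Cov2.zero |>.add g2x2x8p22 |>.add g2x2x8p23 |>.add g2x2x8p24)
  |>.add (Cov2.zero |>.add g2x2x8p25)
  |>.add (Cov2.zero |>.add g2x2x8p26)
  |>.add (Cov2.zero |>.add g2x2x8p27 |>.add g2x2x8p28 |>.add g2x2x8p29 |>.add g2x2x8p30)
  |>.add (Cov2.zero |>.add g2x2x8p31 |>.add g2x2x8p32 |>.add g2x2x8p33 |>.add g2x2x8p34)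
  |>.add (Cov2.zero |>.add g2x2x8p35 |>.add g2x2x8p36 |>.add g2x2x8p37 |>.add g2x2x8p38)
  |>.add (Cov2.zero |>.add g2x2x8p39)
  |>.add (Cov2.zero |>.add g2x2x8p40)
  |>.add (Cov2.zero |>.add g2x2x8p41)
  |>.add (Cov2.zero |>.add g2x2x8p42)
  |>.add (Cov2.zero |>.add g2x2x8p43 |>.add g2x2x8p44 |>.add g2x2x8p45 |>.add g2x2x8p46)
  |>.add (Cov2.zero |>.add g2x2x8p47)
  |>.add (Cov2.zero |>.add g2x2x8p48 |>.add g2x2x8p49 |>.add g2x2x8p50)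
  |>.add (Cov2.zero |>.add g2x2x8p51)
  |>.add (Cov2.zero |>.add g2x2x8p52 |>.add g2x2x8p53 |>.add g2x2x8p54)

theorem g2x2x9cov : Cov1 g2x2x9 g2x2x9top 4096 :=
  Cov1.zero
  |>.add (Cov2.zero |>.add g2x2x9p0)
  |>.add (Cov2.zero |>.add g2x2x9p1 |>.add g2x2x9p2)
  |>.add (Cov2.zero |>.add g2x2x9p3 |>.add g2x2x9p4 |>.add g2x2x9p5)
  |>.add (Cov2.zero |>.add g2x2x9p6 |>.add g2x2x9p7 |>.add g2x2x9p8 |>.add g2x2x9p9)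
  |>.add (Cov2.zero |>.add g2x2x9p10)
  |>.add (Cov2.zero |>.add g2x2x9p11 |>.add g2x2x9p12 |>.add g2x2x9p13 |>.add g2x2x9p14)
  |>.add (Cov2.zero |>.add g2x2x9p15)
  |>.add (Cov2.zero |>.add g2x2x9p16 |>.add g2x2x9p17 |>.add g2x2x9p18 |>.add g2x2x9p19)
  |>.add (Cov2.zero |>.add g2x2x9p20)
  |>.add (Cov2.zero |>.add g2x2x9p21 |>.add g2x2x9p22 |>.add g2x2x9p23)
  |>.add (Cov2.zero |>.add g2x2x9p24 |>.add g2x2x9p25 |>.add g2x2x9p26)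
  |>.add (Cov2.zero |>.add g2x2x9p27)
  |>.add (Cov2.zero |>.add g2x2x9p28)
  |>.add (Cov2.zero |>.add g2x2x9p29 |>.add g2x2x9p30 |>.add g2x2x9p31)
  |>.add (Cov2.zero |>.add g2x2x9p32)
  |>.add (Cov2.zero |>.add g2x2x9p33)
  |>.add (Cov2.zero |>.add g2x2x9p34)
  |>.add (Cov2.zero |>.add g2x2x9p35)
  |>.add (Cov2.zero |>.add g2x2x9p36)
  |>.add (Cov2.zero |>.add g2x2x9p37)
  |>.add (Cov2.zero |>.add g2x2x9p38 |>.add g2x2x9p39 |>.add g2x2x9p40 |>.add g2x2x9p41 |>.add g2x2x9p42)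
  |>.add (Cov2.zero |>.add g2x2x9p43)
  |>.add (Cov2.zero |>.add g2x2x9p44)
  |>.add (Cov2.zero |>.add g2x2x9p45 |>.add g2x2x9p46 |>.add g2x2x9p47 |>.add g2x2x9p48)
  |>.add (Cov2.zero |>.add g2x2x9p49)
  |>.add (Cov2.zero |>.add g2x2x9p50)
  |>.add (Cov2.zero |>.add g2x2x9p51)

theorem g2x2x10cov : Cov1 g2x2x10 g2x2x10top 4096 :=
  Cov1.zero
  |>.add (Cov2.zero |>.add g2x2x10p0)
  |>.add (Cov2.zero |>.add g2x2x10p1 |>.add g2x2x10p2 |>.add g2x2x10p3)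
  |>.add (Cov2.zero |>.add g2x2x10p4)
  |>.add (Cov2.zero |>.add g2x2x10p5 |>.add g2x2x10p6 |>.add g2x2x10p7)
  |>.add (Cov2.zero |>.add g2x2x10p8 |>.add g2x2x10p9 |>.add g2x2x10p10)
  |>.add (Cov2.zero |>.add g2x2x10p11 |>.add g2x2x10p12)
  |>.add (Cov2.zero |>.add g2x2x10p13)
  |>.add (Cov2.zero |>.add g2x2x10p14 |>.add g2x2x10p15 |>.add g2x2x10p16)
  |>.add (Cov2.zero |>.add g2x2x10p17)
  |>.add (Cov2.zero |>.add g2x2x10p18)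
  |>.add (Cov2.zero |>.add g2x2x10p19 |>.add g2x2x10p20 |>.add g2x2x10p21)
  |>.add (Cov2.zero |>.add g2x2x10p22)
  |>.add (Cov2.zero |>.add g2x2x10p23)
  |>.add (Cov2.zero |>.add g2x2x10p24 |>.add g2x2x10p25 |>.add g2x2x10p26 |>.add g2x2x10p27)
  |>.add (Cov2.zero |>.add g2x2x10p28)
  |>.add (Cov2.zero |>.add g2x2x10p29)
  |>.add (Cov2.zero |>.add g2x2x10p30)
  |>.add (Cov2.zero |>.add g2x2x10p31 |>.add g2x2x10p32 |>.add g2x2x10p33 |>.add g2x2x10p34)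
  |>.add (Cov2.zero |>.add g2x2x10p35)
  |>.add (Cov2.zero |>.add g2x2x10p36 |>.add g2x2x10p37 |>.add g2x2x10p38)
  |>.add (Cov2.zero |>.add g2x2x10p39)
  |>.add (Cov2.zero |>.add g2x2x10p40)
  |>.add (Cov2.zero |>.add g2x2x10p41 |>.add g2x2x10p42)
  |>.add (Cov2.zero |>.add g2x2x10p43 |>.add g2x2x10p44)

theorem g2x2x11cov : Cov1 g2x2x11 g2x2x11top 4096 :=
  Cov1.zero
  |>.add (Cov2.zero |>.add g2x2x11p0)
  |>.add (Cov2.zero |>.add g2x2x11p1 |>.add g2x2x11p2 |>.add g2x2x11p3 |>.add g2x2x11p4)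
  |>.add (Cov2.zero |>.add g2x2x11p5 |>.add g2x2x11p6)
  |>.add (Cov2.zero |>.add g2x2x11p7 |>.add g2x2x11p8)
  |>.add (Cov2.zero |>.add g2x2x11p9 |>.add g2x2x11p10 |>.add g2x2x11p11 |>.add g2x2x11p12)
  |>.add (Cov2.zero |>.add g2x2x11p13)
  |>.add (Cov2.zero |>.add g2x2x11p14 |>.add g2x2x11p15)
  |>.add (Cov2.zero |>.add g2x2x11p16)
  |>.add (Cov2.zero |>.add g2x2x11p17 |>.add g2x2x11p18 |>.add g2x2x11p19)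
  |>.add (Cov2.zero |>.add g2x2x11p20)
  |>.add (Cov2.zero |>.add g2x2x11p21 |>.add g2x2x11p22 |>.add g2x2x11p23)
  |>.add (Cov2.zero |>.add g2x2x11p24)
  |>.add (Cov2.zero |>.add g2x2x11p25 |>.add g2x2x11p26)
  |>.add (Cov2.zero |>.add g2x2x11p27 |>.add g2x2x11p28 |>.add g2x2x11p29)

theorem g2x3x3cov : Cov1 g2x3x3 g2x3x3top 4096 :=
  Cov1.zero
  |>.add (Cov2.zero |>.add g2x3x3p0)
  |>.add (Cov2.zero |>.add g2x3x3p1)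
  |>.add (Cov2.zero |>.add g2x3x3p2)
  |>.add (Cov2.zero |>.add g2x3x3p3 |>.add g2x3x3p4)
  |>.add (Cov2.zero |>.add g2x3x3p5)
  |>.add (Cov2.zero |>.add g2x3x3p6)

theorem g2x3x4cov : Cov1 g2x3x4 g2x3x4top 4096 :=
  Cov1.zero
  |>.add (Cov2.zero |>.add g2x3x4p0)
  |>.add (Cov2.zero |>.add g2x3x4p1 |>.add g2x3x4p2 |>.add g2x3x4p3)
  |>.add (Cov2.zero |>.add g2x3x4p4)
  |>.add (Cov2.zero |>.add g2x3x4p5 |>.add g2x3x4p6)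
  |>.add (Cov2.zero |>.add g2x3x4p7)
  |>.add (Cov2.zero |>.add g2x3x4p8 |>.add g2x3x4p9 |>.add g2x3x4p10)
  |>.add (Cov2.zero |>.add g2x3x4p11)
  |>.add (Cov2.zero |>.add g2x3x4p12 |>.add g2x3x4p13 |>.add g2x3x4p14)
  |>.add (Cov2.zero |>.add g2x3x4p15)
  |>.add (Cov2.zero |>.add g2x3x4p16 |>.add g2x3x4p17 |>.add g2x3x4p18)
  |>.add (Cov2.zero |>.add g2x3x4p19)
  |>.add (Cov2.zero |>.add g2x3x4p20 |>.add g2x3x4p21 |>.add g2x3x4p22)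
  |>.add (Cov2.zero |>.add g2x3x4p23)
  |>.add (Cov2.zero |>.add g2x3x4p24)

theorem g2x3x5cov : Cov1 g2x3x5 g2x3x5top 4096 :=
  Cov1.zero
  |>.add (Cov2.zero |>.add g2x3x5p0)
  |>.add (Cov2.zero |>.add g2x3x5p1 |>.add g2x3x5p2)
  |>.add (Cov2.zero |>.add g2x3x5p3 |>.add g2x3x5p4 |>.add g2x3x5p5)
  |>.add (Cov2.zero |>.add g2x3x5p6 |>.add g2x3x5p7 |>.add g2x3x5p8)
  |>.add (Cov2.zero |>.add g2x3x5p9)
  |>.add (Cov2.zero |>.add g2x3x5p10)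
  |>.add (Cov2.zero |>.add g2x3x5p11 |>.add g2x3x5p12 |>.add g2x3x5p13 |>.add g2x3x5p14)
  |>.add (Cov2.zero |>.add g2x3x5p15)
  |>.add (Cov2.zero |>.add g2x3x5p16)
  |>.add (Cov2.zero |>.add g2x3x5p17 |>.add g2x3x5p18 |>.add g2x3x5p19 |>.add g2x3x5p20)
  |>.add (Cov2.zero |>.add g2x3x5p21)
  |>.add (Cov2.zero |>.add g2x3x5p22)
  |>.add (Cov2.zero |>.add g2x3x5p23)
  |>.add (Cov2.zero |>.add g2x3x5p24)
  |>.add (Cov2.zero |>.add g2x3x5p25 |>.add g2x3x5p26 |>.add g2x3x5p27 |>.add g2x3x5p28 |>.add g2x3x5p29)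
  |>.add (Cov2.zero |>.add g2x3x5p30)
  |>.add (Cov2.zero |>.add g2x3x5p31 |>.add g2x3x5p32 |>.add g2x3x5p33)
  |>.add (Cov2.zero |>.add g2x3x5p34 |>.add g2x3x5p35 |>.add g2x3x5p36)
  |>.add (Cov2.zero |>.add g2x3x5p37 |>.add g2x3x5p38)
  |>.add (Cov2.zero |>.add g2x3x5p39 |>.add g2x3x5p40 |>.add g2x3x5p41)
  |>.add (Cov2.zero |>.add g2x3x5p42)
  |>.add (Cov2.zero |>.add g2x3x5p43 |>.add g2x3x5p44 |>.add g2x3x5p45)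
  |>.add (Cov2.zero |>.add g2x3x5p46)
  |>.add (Cov2.zero |>.add g2x3x5p47)
  |>.add (Cov2.zero |>.add g2x3x5p48 |>.add g2x3x5p49 |>.add g2x3x5p50)
  |>.add (Cov2.zero |>.add g2x3x5p51 |>.add g2x3x5p52 |>.add g2x3x5p53 |>.add g2x3x5p54 |>.add g2x3x5p55)
  |>.add (Cov2.zero |>.add g2x3x5p56 |>.add g2x3x5p57)
  |>.add (Cov2.zero |>.add g2x3x5p58)

theorem g2x3x6cov : Cov1 g2x3x6 g2x3x6top 4096 :=
  Cov1.zero
  |>.add (Cov2.zero |>.add g2x3x6p0)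
  |>.add (Cov2.zero |>.add g2x3x6p1 |>.add g2x3x6p2 |>.add g2x3x6p3)
  |>.add (Cov2.zero |>.add g2x3x6p4)
  |>.add (Cov2.zero |>.add g2x3x6p5)
  |>.add (Cov2.zero |>.add g2x3x6p6)
  |>.add (Cov2.zero |>.add g2x3x6p7 |>.add g2x3x6p8 |>.add g2x3x6p9 |>.add g2x3x6p10 |>.add g2x3x6p11)
  |>.add (Cov2.zero |>.add g2x3x6p12)
  |>.add (Cov2.zero |>.add g2x3x6p13)
  |>.add (Cov2.zero |>.add g2x3x6p14 |>.add g2x3x6p15 |>.add g2x3x6p16 |>.add g2x3x6p17 |>.add g2x3x6p18)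
  |>.add (Cov2.zero |>.add g2x3x6p19)
  |>.add (Cov2.zero |>.add g2x3x6p20 |>.add g2x3x6p21 |>.add g2x3x6p22 |>.add g2x3x6p23)
  |>.add (Cov2.zero |>.add g2x3x6p24 |>.add g2x3x6p25 |>.add g2x3x6p26 |>.add g2x3x6p27)
  |>.add (Cov2.zero |>.add g2x3x6p28 |>.add g2x3x6p29 |>.add g2x3x6p30 |>.add g2x3x6p31 |>.add g2x3x6p32)
  |>.add (Cov2.zero |>.add g2x3x6p33)
  |>.add (Cov2.zero |>.add g2x3x6p34 |>.add g2x3x6p35 |>.add g2x3x6p36 |>.add g2x3x6p37)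
  |>.add (Cov2.zero |>.add g2x3x6p38)
  |>.add (Cov2.zero |>.add g2x3x6p39 |>.add g2x3x6p40 |>.add g2x3x6p41 |>.add g2x3x6p42)
  |>.add (Cov2.zero |>.add g2x3x6p43)
  |>.add (Cov2.zero |>.add g2x3x6p44 |>.add g2x3x6p45 |>.add g2x3x6p46 |>.add g2x3x6p47)
  |>.add (Cov2.zero |>.add g2x3x6p48)
  |>.add (Cov2.zero |>.add g2x3x6p49)
  |>.add (Cov2.zero |>.add g2x3x6p50)
  |>.add (Cov2.zero |>.add g2x3x6p51 |>.add g2x3x6p52 |>.add g2x3x6p53 |>.add g2x3x6p54 |>.add g2x3x6p55 |>.add g2x3x6p56)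
  |>.add (Cov2.zero |>.add g2x3x6p57)
  |>.add (Cov2.zero |>.add g2x3x6p58 |>.add g2x3x6p59)
  |>.add (Cov2.zero |>.add g2x3x6p60)
  |>.add (Cov2.zero |>.add g2x3x6p61 |>.add g2x3x6p62)
  |>.add (Cov2.zero |>.add g2x3x6p63 |>.add g2x3x6p64 |>.add g2x3x6p65 |>.add g2x3x6p66 |>.add g2x3x6p67 |>.add g2x3x6p68)
  |>.add (Cov2.zero |>.add g2x3x6p69)
  |>.add (Cov2.zero |>.add g2x3x6p70 |>.add g2x3x6p71 |>.add g2x3x6p72)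
  |>.add (Cov2.zero |>.add g2x3x6p73 |>.add g2x3x6p74)
  |>.add (Cov2.zero |>.add g2x3x6p75)
  |>.add (Cov2.zero |>.add g2x3x6p76 |>.add g2x3x6p77 |>.add g2x3x6p78 |>.add g2x3x6p79)
  |>.add (Cov2.zero |>.add g2x3x6p80)

theorem g2x3x7cov : Cov1 g2x3x7 g2x3x7top 4096 :=
  Cov1.zero
  |>.add (Cov2.zero |>.add g2x3x7p0)
  |>.add (Cov2.zero |>.add g2x3x7p1)
  |>.add (Cov2.zero |>.add g2x3x7p2 |>.add g2x3x7p3 |>.add g2x3x7p4)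
  |>.add (Cov2.zero |>.add g2x3x7p5 |>.add g2x3x7p6 |>.add g2x3x7p7 |>.add g2x3x7p8)
  |>.add (Cov2.zero |>.add g2x3x7p9)
  |>.add (Cov2.zero |>.add g2x3x7p10 |>.add g2x3x7p11 |>.add g2x3x7p12 |>.add g2x3x7p13 |>.add g2x3x7p14)
  |>.add (Cov2.zero |>.add g2x3x7p15 |>.add g2x3x7p16)
  |>.add (Cov2.zero |>.add g2x3x7p17)
  |>.add (Cov2.zero |>.add g2x3x7p18 |>.add g2x3x7p19)
  |>.add (Cov2.zero |>.add g2x3x7p20 |>.add g2x3x7p21 |>.add g2x3x7p22 |>.add g2x3x7p23 |>.add g2x3x7p24)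
  |>.add (Cov2.zero |>.add g2x3x7p25)
  |>.add (Cov2.zero |>.add g2x3x7p26 |>.add g2x3x7p27 |>.add g2x3x7p28 |>.add g2x3x7p29)
  |>.add (Cov2.zero |>.add g2x3x7p30 |>.add g2x3x7p31)
  |>.add (Cov2.zero |>.add g2x3x7p32)
  |>.add (Cov2.zero |>.add g2x3x7p33 |>.add g2x3x7p34 |>.add g2x3x7p35)
  |>.add (Cov2.zero |>.add g2x3x7p36 |>.add g2x3x7p37 |>.add g2x3x7p38 |>.add g2x3x7p39)
  |>.add (Cov2.zero |>.add g2x3x7p40 |>.add g2x3x7p41 |>.add g2x3x7p42)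
  |>.add (Cov2.zero |>.add g2x3x7p43)
  |>.add (Cov2.zero |>.add g2x3x7p44 |>.add g2x3x7p45)
  |>.add (Cov2.zero |>.add g2x3x7p46 |>.add g2x3x7p47 |>.add g2x3x7p48 |>.add g2x3x7p49)
  |>.add (Cov2.zero |>.add g2x3x7p50 |>.add g2x3x7p51 |>.add g2x3x7p52)
  |>.add (Cov2.zero |>.add g2x3x7p53)
  |>.add (Cov2.zero |>.add g2x3x7p54 |>.add g2x3x7p55 |>.add g2x3x7p56)
  |>.add (Cov2.zero |>.add g2x3x7p57 |>.add g2x3x7p58 |>.add g2x3x7p59 |>.add g2x3x7p60 |>.add g2x3x7p61)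
  |>.add (Cov2.zero |>.add g2x3x7p62 |>.add g2x3x7p63)
  |>.add (Cov2.zero |>.add g2x3x7p64)
  |>.add (Cov2.zero |>.add g2x3x7p65 |>.add g2x3x7p66)
  |>.add (Cov2.zero |>.add g2x3x7p67 |>.add g2x3x7p68 |>.add g2x3x7p69)
  |>.add (Cov2.zero |>.add g2x3x7p70 |>.add g2x3x7p71)
  |>.add (Cov2.zero |>.add g2x3x7p72)

theorem g2x3x8cov : Cov1 g2x3x8 g2x3x8top 4096 :=
  Cov1.zero
  |>.add (Cov2.zero |>.add g2x3x8p0 |>.add g2x3x8p1)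
  |>.add (Cov2.zero |>.add g2x3x8p2)
  |>.add (Cov2.zero |>.add g2x3x8p3 |>.add g2x3x8p4 |>.add g2x3x8p5)
  |>.add (Cov2.zero |>.add g2x3x8p6 |>.add g2x3x8p7 |>.add g2x3x8p8 |>.add g2x3x8p9 |>.add g2x3x8p10)
  |>.add (Cov2.zero |>.add g2x3x8p11 |>.add g2x3x8p12 |>.add g2x3x8p13 |>.add g2x3x8p14)
  |>.add (Cov2.zero |>.add g2x3x8p15)
  |>.add (Cov2.zero |>.add g2x3x8p16)
  |>.add (Cov2.zero |>.add g2x3x8p17 |>.add g2x3x8p18 |>.add g2x3x8p19 |>.add g2x3x8p20 |>.add g2x3x8p21)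
  |>.add (Cov2.zero |>.add g2x3x8p22)
  |>.add (Cov2.zero |>.add g2x3x8p23)
  |>.add (Cov2.zero |>.add g2x3x8p24 |>.add g2x3x8p25 |>.add g2x3x8p26 |>.add g2x3x8p27 |>.add g2x3x8p28)
  |>.add (Cov2.zero |>.add g2x3x8p29)
  |>.add (Cov2.zero |>.add g2x3x8p30)
  |>.add (Cov2.zero |>.add g2x3x8p31 |>.add g2x3x8p32 |>.add g2x3x8p33)
  |>.add (Cov2.zero |>.add g2x3x8p34)
  |>.add (Cov2.zero |>.add g2x3x8p35 |>.add g2x3x8p36)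
  |>.add (Cov2.zero |>.add g2x3x8p37 |>.add g2x3x8p38 |>.add g2x3x8p39)
  |>.add (Cov2.zero |>.add g2x3x8p40)
  |>.add (Cov2.zero |>.add g2x3x8p41 |>.add g2x3x8p42)
  |>.add (Cov2.zero |>.add g2x3x8p43 |>.add g2x3x8p44 |>.add g2x3x8p45 |>.add g2x3x8p46 |>.add g2x3x8p47)
  |>.add (Cov2.zero |>.add g2x3x8p48)
  |>.add (Cov2.zero |>.add g2x3x8p49 |>.add g2x3x8p50 |>.add g2x3x8p51)
  |>.add (Cov2.zero |>.add g2x3x8p52 |>.add g2x3x8p53 |>.add g2x3x8p54 |>.add g2x3x8p55)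
  |>.add (Cov2.zero |>.add g2x3x8p56 |>.add g2x3x8p57 |>.add g2x3x8p58 |>.add g2x3x8p59 |>.add g2x3x8p60)
  |>.add (Cov2.zero |>.add g2x3x8p61 |>.add g2x3x8p62)
  |>.add (Cov2.zero |>.add g2x3x8p63 |>.add g2x3x8p64 |>.add g2x3x8p65 |>.add g2x3x8p66)
  |>.add (Cov2.zero |>.add g2x3x8p67 |>.add g2x3x8p68)
  |>.add (Cov2.zero |>.add g2x3x8p69 |>.add g2x3x8p70)
  |>.add (Cov2.zero |>.add g2x3x8p71)
  |>.add (Cov2.zero |>.add g2x3x8p72 |>.add g2x3x8p73 |>.add g2x3x8p74 |>.add g2x3x8p75)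
  |>.add (Cov2.zero |>.add g2x3x8p76 |>.add g2x3x8p77)
  |>.add (Cov2.zero |>.add g2x3x8p78)

theorem g2x3x9cov : Cov1 g2x3x9 g2x3x9top 4096 :=
  Cov1.zero
  |>.add (Cov2.zero |>.add g2x3x9p0)
  |>.add (Cov2.zero |>.add g2x3x9p1)
  |>.add (Cov2.zero |>.add g2x3x9p2)
  |>.add (Cov2.zero |>.add g2x3x9p3 |>.add g2x3x9p4 |>.add g2x3x9p5 |>.add g2x3x9p6)
  |>.add (Cov2.zero |>.add g2x3x9p7)
  |>.add (Cov2.zero |>.add g2x3x9p8)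
  |>.add (Cov2.zero |>.add g2x3x9p9)
  |>.add (Cov2.zero |>.add g2x3x9p10)
  |>.add (Cov2.zero |>.add g2x3x9p11 |>.add g2x3x9p12 |>.add g2x3x9p13 |>.add g2x3x9p14)
  |>.add (Cov2.zero |>.add g2x3x9p15)
  |>.add (Cov2.zero |>.add g2x3x9p16)
  |>.add (Cov2.zero |>.add g2x3x9p17)
  |>.add (Cov2.zero |>.add g2x3x9p18)
  |>.add (Cov2.zero |>.add g2x3x9p19)
  |>.add (Cov2.zero |>.add g2x3x9p20)
  |>.add (Cov2.zero |>.add g2x3x9p21)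
  |>.add (Cov2.zero |>.add g2x3x9p22 |>.add g2x3x9p23 |>.add g2x3x9p24 |>.add g2x3x9p25)
  |>.add (Cov2.zero |>.add g2x3x9p26)
  |>.add (Cov2.zero |>.add g2x3x9p27)
  |>.add (Cov2.zero |>.add g2x3x9p28)
  |>.add (Cov2.zero |>.add g2x3x9p29)
  |>.add (Cov2.zero |>.add g2x3x9p30 |>.add g2x3x9p31 |>.add g2x3x9p32)
  |>.add (Cov2.zero |>.add g2x3x9p33 |>.add g2x3x9p34 |>.add g2x3x9p35 |>.add g2x3x9p36)
  |>.add (Cov2.zero |>.add g2x3x9p37)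
  |>.add (Cov2.zero |>.add g2x3x9p38)
  |>.add (Cov2.zero |>.add g2x3x9p39 |>.add g2x3x9p40 |>.add g2x3x9p41)
  |>.add (Cov2.zero |>.add g2x3x9p42)
  |>.add (Cov2.zero |>.add g2x3x9p43)
  |>.add (Cov2.zero |>.add g2x3x9p44 |>.add g2x3x9p45 |>.add g2x3x9p46 |>.add g2x3x9p47)
  |>.add (Cov2.zero |>.add g2x3x9p48)
  |>.add (Cov2.zero |>.add g2x3x9p49 |>.add g2x3x9p50)
  |>.add (Cov2.zero |>.add g2x3x9p51)

theorem g2x4x4cov : Cov1 g2x4x4 g2x4x4top 4096 :=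
  Cov1.zero
  |>.add (Cov2.zero |>.add g2x4x4p0)
  |>.add (Cov2.zero |>.add g2x4x4p1 |>.add g2x4x4p2 |>.add g2x4x4p3)
  |>.add (Cov2.zero |>.add g2x4x4p4 |>.add g2x4x4p5)
  |>.add (Cov2.zero |>.add g2x4x4p6)
  |>.add (Cov2.zero |>.add g2x4x4p7 |>.add g2x4x4p8 |>.add g2x4x4p9)
  |>.add (Cov2.zero |>.add g2x4x4p10 |>.add g2x4x4p11 |>.add g2x4x4p12)
  |>.add (Cov2.zero |>.add g2x4x4p13 |>.add g2x4x4p14)
  |>.add (Cov2.zero |>.add g2x4x4p15)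
  |>.add (Cov2.zero |>.add g2x4x4p16 |>.add g2x4x4p17)
  |>.add (Cov2.zero |>.add g2x4x4p18 |>.add g2x4x4p19)
  |>.add (Cov2.zero |>.add g2x4x4p20)
  |>.add (Cov2.zero |>.add g2x4x4p21)
  |>.add (Cov2.zero |>.add g2x4x4p22 |>.add g2x4x4p23 |>.add g2x4x4p24 |>.add g2x4x4p25)
  |>.add (Cov2.zero |>.add g2x4x4p26)
  |>.add (Cov2.zero |>.add g2x4x4p27 |>.add g2x4x4p28)
  |>.add (Cov2.zero |>.add g2x4x4p29)
  |>.add (Cov2.zero |>.add g2x4x4p30 |>.add g2x4x4p31)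
  |>.add (Cov2.zero |>.add g2x4x4p32 |>.add g2x4x4p33)
  |>.add (Cov2.zero |>.add g2x4x4p34 |>.add g2x4x4p35)
  |>.add (Cov2.zero |>.add g2x4x4p36)
  |>.add (Cov2.zero |>.add g2x4x4p37)
  |>.add (Cov2.zero |>.add g2x4x4p38)

theorem g2x4x5cov : Cov1 g2x4x5 g2x4x5top 4096 :=
  Cov1.zero
  |>.add (Cov2.zero |>.add g2x4x5p0)
  |>.add (Cov2.zero |>.add g2x4x5p1)
  |>.add (Cov2.zero |>.add g2x4x5p2 |>.add g2x4x5p3 |>.add g2x4x5p4 |>.add g2x4x5p5 |>.add g2x4x5p6)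
  |>.add (Cov2.zero |>.add g2x4x5p7 |>.add g2x4x5p8)
  |>.add (Cov2.zero |>.add g2x4x5p9 |>.add g2x4x5p10)
  |>.add (Cov2.zero |>.add g2x4x5p11)
  |>.add (Cov2.zero |>.add g2x4x5p12 |>.add g2x4x5p13 |>.add g2x4x5p14)
  |>.add (Cov2.zero |>.add g2x4x5p15 |>.add g2x4x5p16 |>.add g2x4x5p17 |>.add g2x4x5p18 |>.add g2x4x5p19)
  |>.add (Cov2.zero |>.add g2x4x5p20)
  |>.add (Cov2.zero |>.add g2x4x5p21)
  |>.add (Cov2.zero |>.add g2x4x5p22 |>.add g2x4x5p23 |>.add g2x4x5p24 |>.add g2x4x5p25)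
  |>.add (Cov2.zero |>.add g2x4x5p26 |>.add g2x4x5p27)
  |>.add (Cov2.zero |>.add g2x4x5p28)
  |>.add (Cov2.zero |>.add g2x4x5p29 |>.add g2x4x5p30 |>.add g2x4x5p31 |>.add g2x4x5p32)
  |>.add (Cov2.zero |>.add g2x4x5p33 |>.add g2x4x5p34 |>.add g2x4x5p35 |>.add g2x4x5p36 |>.add g2x4x5p37)
  |>.add (Cov2.zero |>.add g2x4x5p38)
  |>.add (Cov2.zero |>.add g2x4x5p39 |>.add g2x4x5p40)
  |>.add (Cov2.zero |>.add g2x4x5p41 |>.add g2x4x5p42 |>.add g2x4x5p43)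
  |>.add (Cov2.zero |>.add g2x4x5p44)
  |>.add (Cov2.zero |>.add g2x4x5p45 |>.add g2x4x5p46)
  |>.add (Cov2.zero |>.add g2x4x5p47)
  |>.add (Cov2.zero |>.add g2x4x5p48 |>.add g2x4x5p49 |>.add g2x4x5p50)
  |>.add (Cov2.zero |>.add g2x4x5p51 |>.add g2x4x5p52 |>.add g2x4x5p53)
  |>.add (Cov2.zero |>.add g2x4x5p54)
  |>.add (Cov2.zero |>.add g2x4x5p55 |>.add g2x4x5p56 |>.add g2x4x5p57)
  |>.add (Cov2.zero |>.add g2x4x5p58 |>.add g2x4x5p59 |>.add g2x4x5p60 |>.add g2x4x5p61)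
  |>.add (Cov2.zero |>.add g2x4x5p62)
  |>.add (Cov2.zero |>.add g2x4x5p63 |>.add g2x4x5p64 |>.add g2x4x5p65)
  |>.add (Cov2.zero |>.add g2x4x5p66)

theorem g2x4x6cov : Cov1 g2x4x6 g2x4x6top 4096 :=
  Cov1.zero
  |>.add (Cov2.zero |>.add g2x4x6p0)
  |>.add (Cov2.zero |>.add g2x4x6p1)
  |>.add (Cov2.zero |>.add g2x4x6p2 |>.add g2x4x6p3)
  |>.add (Cov2.zero |>.add g2x4x6p4)
  |>.add (Cov2.zero |>.add g2x4x6p5 |>.add g2x4x6p6 |>.add g2x4x6p7 |>.add g2x4x6p8)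
  |>.add (Cov2.zero |>.add g2x4x6p9 |>.add g2x4x6p10 |>.add g2x4x6p11 |>.add g2x4x6p12)
  |>.add (Cov2.zero |>.add g2x4x6p13 |>.add g2x4x6p14 |>.add g2x4x6p15)
  |>.add (Cov2.zero |>.add g2x4x6p16 |>.add g2x4x6p17 |>.add g2x4x6p18)
  |>.add (Cov2.zero |>.add g2x4x6p19 |>.add g2x4x6p20)
  |>.add (Cov2.zero |>.add g2x4x6p21 |>.add g2x4x6p22 |>.add g2x4x6p23)
  |>.add (Cov2.zero |>.add g2x4x6p24 |>.add g2x4x6p25 |>.add g2x4x6p26)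
  |>.add (Cov2.zero |>.add g2x4x6p27)
  |>.add (Cov2.zero |>.add g2x4x6p28 |>.add g2x4x6p29 |>.add g2x4x6p30 |>.add g2x4x6p31)
  |>.add (Cov2.zero |>.add g2x4x6p32 |>.add g2x4x6p33 |>.add g2x4x6p34 |>.add g2x4x6p35)
  |>.add (Cov2.zero |>.add g2x4x6p36 |>.add g2x4x6p37 |>.add g2x4x6p38)
  |>.add (Cov2.zero |>.add g2x4x6p39)
  |>.add (Cov2.zero |>.add g2x4x6p40 |>.add g2x4x6p41)
  |>.add (Cov2.zero |>.add g2x4x6p42)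
  |>.add (Cov2.zero |>.add g2x4x6p43 |>.add g2x4x6p44 |>.add g2x4x6p45 |>.add g2x4x6p46)
  |>.add (Cov2.zero |>.add g2x4x6p47 |>.add g2x4x6p48 |>.add g2x4x6p49)
  |>.add (Cov2.zero |>.add g2x4x6p50)
  |>.add (Cov2.zero |>.add g2x4x6p51)
  |>.add (Cov2.zero |>.add g2x4x6p52)

theorem g2x4x7cov : Cov1 g2x4x7 g2x4x7top 4096 :=
  Cov1.zero
  |>.add (Cov2.zero |>.add g2x4x7p0)
  |>.add (Cov2.zero |>.add g2x4x7p1 |>.add g2x4x7p2)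
  |>.add (Cov2.zero |>.add g2x4x7p3 |>.add g2x4x7p4 |>.add g2x4x7p5)
  |>.add (Cov2.zero |>.add g2x4x7p6 |>.add g2x4x7p7)
  |>.add (Cov2.zero |>.add g2x4x7p8)
  |>.add (Cov2.zero |>.add g2x4x7p9)
  |>.add (Cov2.zero |>.add g2x4x7p10)
  |>.add (Cov2.zero |>.add g2x4x7p11 |>.add g2x4x7p12 |>.add g2x4x7p13)
  |>.add (Cov2.zero |>.add g2x4x7p14)
  |>.add (Cov2.zero |>.add g2x4x7p15 |>.add g2x4x7p16 |>.add g2x4x7p17)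
  |>.add (Cov2.zero |>.add g2x4x7p18)
  |>.add (Cov2.zero |>.add g2x4x7p19 |>.add g2x4x7p20)
  |>.add (Cov2.zero |>.add g2x4x7p21 |>.add g2x4x7p22)
  |>.add (Cov2.zero |>.add g2x4x7p23)
  |>.add (Cov2.zero |>.add g2x4x7p24 |>.add g2x4x7p25)
  |>.add (Cov2.zero |>.add g2x4x7p26)
  |>.add (Cov2.zero |>.add g2x4x7p27)
  |>.add (Cov2.zero |>.add g2x4x7p28)

theorem g2x5x5cov : Cov1 g2x5x5 g2x5x5top 4096 :=
  Cov1.zero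
  |>.add (Cov2.zero |>.add g2x5x5p0)
  |>.add (Cov2.zero |>.add g2x5x5p1 |>.add g2x5x5p2 |>.add g2x5x5p3 |>.add g2x5x5p4)
  |>.add (Cov2.zero |>.add g2x5x5p5 |>.add g2x5x5p6 |>.add g2x5x5p7 |>.add g2x5x5p8)
  |>.add (Cov2.zero |>.add g2x5x5p9 |>.add g2x5x5p10 |>.add g2x5x5p11 |>.add g2x5x5p12 |>.add g2x5x5p13)
  |>.add (Cov2.zero |>.add g2x5x5p14)
  |>.add (Cov2.zero |>.add g2x5x5p15 |>.add g2x5x5p16 |>.add g2x5x5p17 |>.add g2x5x5p18)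
  |>.add (Cov2.zero |>.add g2x5x5p19 |>.add g2x5x5p20 |>.add g2x5x5p21)
  |>.add (Cov2.zero |>.add g2x5x5p22)
  |>.add (Cov2.zero |>.add g2x5x5p23 |>.add g2x5x5p24 |>.add g2x5x5p25)
  |>.add (Cov2.zero |>.add g2x5x5p26 |>.add g2x5x5p27 |>.add g2x5x5p28)
  |>.add (Cov2.zero |>.add g2x5x5p29)
  |>.add (Cov2.zero |>.add g2x5x5p30 |>.add g2x5x5p31 |>.add g2x5x5p32 |>.add g2x5x5p33)
  |>.add (Cov2.zero |>.add g2x5x5p34 |>.add g2x5x5p35 |>.add g2x5x5p36)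
  |>.add (Cov2.zero |>.add g2x5x5p37)
  |>.add (Cov2.zero |>.add g2x5x5p38 |>.add g2x5x5p39 |>.add g2x5x5p40)
  |>.add (Cov2.zero |>.add g2x5x5p41 |>.add g2x5x5p42)
  |>.add (Cov2.zero |>.add g2x5x5p43 |>.add g2x5x5p44 |>.add g2x5x5p45 |>.add g2x5x5p46)
  |>.add (Cov2.zero |>.add g2x5x5p47)
  |>.add (Cov2.zero |>.add g2x5x5p48 |>.add g2x5x5p49)

theorem g2x5x6cov : Cov1 g2x5x6 g2x5x6top 4096 :=
  Cov1.zero
  |>.add (Cov2.zero |>.add g2x5x6p0 |>.add g2x5x6p1)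
  |>.add (Cov2.zero |>.add g2x5x6p2 |>.add g2x5x6p3 |>.add g2x5x6p4)
  |>.add (Cov2.zero |>.add g2x5x6p5 |>.add g2x5x6p6 |>.add g2x5x6p7 |>.add g2x5x6p8)
  |>.add (Cov2.zero |>.add g2x5x6p9)
  |>.add (Cov2.zero |>.add g2x5x6p10 |>.add g2x5x6p11 |>.add g2x5x6p12 |>.add g2x5x6p13)
  |>.add (Cov2.zero |>.add g2x5x6p14)
  |>.add (Cov2.zero |>.add g2x5x6p15)
  |>.add (Cov2.zero |>.add g2x5x6p16)
  |>.add (Cov2.zero |>.add g2x5x6p17 |>.add g2x5x6p18 |>.add g2x5x6p19 |>.add g2x5x6p20)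
  |>.add (Cov2.zero |>.add g2x5x6p21)
  |>.add (Cov2.zero |>.add g2x5x6p22 |>.add g2x5x6p23 |>.add g2x5x6p24)
  |>.add (Cov2.zero |>.add g2x5x6p25 |>.add g2x5x6p26 |>.add g2x5x6p27)
  |>.add (Cov2.zero |>.add g2x5x6p28 |>.add g2x5x6p29 |>.add g2x5x6p30)
  |>.add (Cov2.zero |>.add g2x5x6p31 |>.add g2x5x6p32)
  |>.add (Cov2.zero |>.add g2x5x6p33)

theorem g2x5x7cov : Cov1 g2x5x7 g2x5x7top 4096 :=
  Cov1.zero
  |>.add (Cov2.zero |>.add g2x5x7p0)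
  |>.add (Cov2.zero |>.add g2x5x7p1 |>.add g2x5x7p2)
  |>.add (Cov2.zero |>.add g2x5x7p3)
  |>.add (Cov2.zero |>.add g2x5x7p4 |>.add g2x5x7p5 |>.add g2x5x7p6)
  |>.add (Cov2.zero |>.add g2x5x7p7)
  |>.add (Cov2.zero |>.add g2x5x7p8 |>.add g2x5x7p9)
  |>.add (Cov2.zero |>.add g2x5x7p10 |>.add g2x5x7p11)
  |>.add (Cov2.zero |>.add g2x5x7p12)
  |>.add (Cov2.zero |>.add g2x5x7p13 |>.add g2x5x7p14)

theorem g2x6x6cov : Cov1 g2x6x6 g2x6x6top 4096 :=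
  Cov1.zero
  |>.add (Cov2.zero |>.add g2x6x6p0)
  |>.add (Cov2.zero |>.add g2x6x6p1)
  |>.add (Cov2.zero |>.add g2x6x6p2)
  |>.add (Cov2.zero |>.add g2x6x6p3)

theorem g3x3x3cov : Cov1 g3x3x3 g3x3x3top 4096 :=
  Cov1.zero
  |>.add (Cov2.zero |>.add g3x3x3p0)
  |>.add (Cov2.zero |>.add g3x3x3p1 |>.add g3x3x3p2)
  |>.add (Cov2.zero |>.add g3x3x3p3)
  |>.add (Cov2.zero |>.add g3x3x3p4 |>.add g3x3x3p5)
  |>.add (Cov2.zero |>.add g3x3x3p6 |>.add g3x3x3p7)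
  |>.add (Cov2.zero |>.add g3x3x3p8)
  |>.add (Cov2.zero |>.add g3x3x3p9 |>.add g3x3x3p10)
  |>.add (Cov2.zero |>.add g3x3x3p11 |>.add g3x3x3p12)
  |>.add (Cov2.zero |>.add g3x3x3p13)

theorem g3x3x4cov : Cov1 g3x3x4 g3x3x4top 4096 :=
  Cov1.zero
  |>.add (Cov2.zero |>.add g3x3x4p0)
  |>.add (Cov2.zero |>.add g3x3x4p1 |>.add g3x3x4p2 |>.add g3x3x4p3)
  |>.add (Cov2.zero |>.add g3x3x4p4 |>.add g3x3x4p5 |>.add g3x3x4p6 |>.add g3x3x4p7)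
  |>.add (Cov2.zero |>.add g3x3x4p8)
  |>.add (Cov2.zero |>.add g3x3x4p9 |>.add g3x3x4p10 |>.add g3x3x4p11 |>.add g3x3x4p12)
  |>.add (Cov2.zero |>.add g3x3x4p13 |>.add g3x3x4p14)
  |>.add (Cov2.zero |>.add g3x3x4p15 |>.add g3x3x4p16 |>.add g3x3x4p17)
  |>.add (Cov2.zero |>.add g3x3x4p18 |>.add g3x3x4p19 |>.add g3x3x4p20)
  |>.add (Cov2.zero |>.add g3x3x4p21 |>.add g3x3x4p22 |>.add g3x3x4p23 |>.add g3x3x4p24)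
  |>.add (Cov2.zero |>.add g3x3x4p25 |>.add g3x3x4p26)
  |>.add (Cov2.zero |>.add g3x3x4p27 |>.add g3x3x4p28)
  |>.add (Cov2.zero |>.add g3x3x4p29)
  |>.add (Cov2.zero |>.add g3x3x4p30)
  |>.add (Cov2.zero |>.add g3x3x4p31 |>.add g3x3x4p32 |>.add g3x3x4p33)
  |>.add (Cov2.zero |>.add g3x3x4p34 |>.add g3x3x4p35 |>.add g3x3x4p36)
  |>.add (Cov2.zero |>.add g3x3x4p37 |>.add g3x3x4p38 |>.add g3x3x4p39 |>.add g3x3x4p40)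
  |>.add (Cov2.zero |>.add g3x3x4p41 |>.add g3x3x4p42 |>.add g3x3x4p43 |>.add g3x3x4p44)
  |>.add (Cov2.zero |>.add g3x3x4p45)
  |>.add (Cov2.zero |>.add g3x3x4p46 |>.add g3x3x4p47)
  |>.add (Cov2.zero |>.add g3x3x4p48)
  |>.add (Cov2.zero |>.add g3x3x4p49 |>.add g3x3x4p50 |>.add g3x3x4p51)
  |>.add (Cov2.zero |>.add g3x3x4p52)
  |>.add (Cov2.zero |>.add g3x3x4p53)
  |>.add (Cov2.zero |>.add g3x3x4p54)
  |>.add (Cov2.zero |>.add g3x3x4p55)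

theorem g3x3x5cov : Cov1 g3x3x5 g3x3x5top 4096 :=
  Cov1.zero
  |>.add (Cov2.zero |>.add g3x3x5p0 |>.add g3x3x5p1 |>.add g3x3x5p2)
  |>.add (Cov2.zero |>.add g3x3x5p3 |>.add g3x3x5p4 |>.add g3x3x5p5 |>.add g3x3x5p6)
  |>.add (Cov2.zero |>.add g3x3x5p7 |>.add g3x3x5p8 |>.add g3x3x5p9 |>.add g3x3x5p10)
  |>.add (Cov2.zero |>.add g3x3x5p11)
  |>.add (Cov2.zero |>.add g3x3x5p12 |>.add g3x3x5p13)
  |>.add (Cov2.zero |>.add g3x3x5p14)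
  |>.add (Cov2.zero |>.add g3x3x5p15 |>.add g3x3x5p16 |>.add g3x3x5p17 |>.add g3x3x5p18)
  |>.add (Cov2.zero |>.add g3x3x5p19 |>.add g3x3x5p20)
  |>.add (Cov2.zero |>.add g3x3x5p21 |>.add g3x3x5p22 |>.add g3x3x5p23 |>.add g3x3x5p24 |>.add g3x3x5p25)
  |>.add (Cov2.zero |>.add g3x3x5p26)
  |>.add (Cov2.zero |>.add g3x3x5p27 |>.add g3x3x5p28 |>.add g3x3x5p29)
  |>.add (Cov2.zero |>.add g3x3x5p30 |>.add g3x3x5p31 |>.add g3x3x5p32)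
  |>.add (Cov2.zero |>.add g3x3x5p33 |>.add g3x3x5p34 |>.add g3x3x5p35 |>.add g3x3x5p36)
  |>.add (Cov2.zero |>.add g3x3x5p37 |>.add g3x3x5p38 |>.add g3x3x5p39 |>.add g3x3x5p40)
  |>.add (Cov2.zero |>.add g3x3x5p41 |>.add g3x3x5p42 |>.add g3x3x5p43)
  |>.add (Cov2.zero |>.add g3x3x5p44 |>.add g3x3x5p45 |>.add g3x3x5p46)
  |>.add (Cov2.zero |>.add g3x3x5p47)
  |>.add (Cov2.zero |>.add g3x3x5p48)
  |>.add (Cov2.zero |>.add g3x3x5p49 |>.add g3x3x5p50 |>.add g3x3x5p51)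
  |>.add (Cov2.zero |>.add g3x3x5p52)
  |>.add (Cov2.zero |>.add g3x3x5p53 |>.add g3x3x5p54 |>.add g3x3x5p55)
  |>.add (Cov2.zero |>.add g3x3x5p56 |>.add g3x3x5p57 |>.add g3x3x5p58 |>.add g3x3x5p59)
  |>.add (Cov2.zero |>.add g3x3x5p60)
  |>.add (Cov2.zero |>.add g3x3x5p61 |>.add g3x3x5p62)
  |>.add (Cov2.zero |>.add g3x3x5p63)
  |>.add (Cov2.zero |>.add g3x3x5p64 |>.add g3x3x5p65)
  |>.add (Cov2.zero |>.add g3x3x5p66 |>.add g3x3x5p67 |>.add g3x3x5p68)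
  |>.add (Cov2.zero |>.add g3x3x5p69 |>.add g3x3x5p70)
  |>.add (Cov2.zero |>.add g3x3x5p71)

theorem g3x3x6cov : Cov1 g3x3x6 g3x3x6top 4096 :=
  Cov1.zero
  |>.add (Cov2.zero |>.add g3x3x6p0)
  |>.add (Cov2.zero |>.add g3x3x6p1 |>.add g3x3x6p2)
  |>.add (Cov2.zero |>.add g3x3x6p3 |>.add g3x3x6p4)
  |>.add (Cov2.zero |>.add g3x3x6p5)
  |>.add (Cov2.zero |>.add g3x3x6p6 |>.add g3x3x6p7)
  |>.add (Cov2.zero |>.add g3x3x6p8 |>.add g3x3x6p9 |>.add g3x3x6p10 |>.add g3x3x6p11)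
  |>.add (Cov2.zero |>.add g3x3x6p12 |>.add g3x3x6p13 |>.add g3x3x6p14 |>.add g3x3x6p15)
  |>.add (Cov2.zero |>.add g3x3x6p16 |>.add g3x3x6p17 |>.add g3x3x6p18 |>.add g3x3x6p19)
  |>.add (Cov2.zero |>.add g3x3x6p20)
  |>.add (Cov2.zero |>.add g3x3x6p21)
  |>.add (Cov2.zero |>.add g3x3x6p22 |>.add g3x3x6p23)
  |>.add (Cov2.zero |>.add g3x3x6p24 |>.add g3x3x6p25)
  |>.add (Cov2.zero |>.add g3x3x6p26 |>.add g3x3x6p27 |>.add g3x3x6p28 |>.add g3x3x6p29)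
  |>.add (Cov2.zero |>.add g3x3x6p30)
  |>.add (Cov2.zero |>.add g3x3x6p31 |>.add g3x3x6p32 |>.add g3x3x6p33)
  |>.add (Cov2.zero |>.add g3x3x6p34 |>.add g3x3x6p35)
  |>.add (Cov2.zero |>.add g3x3x6p36 |>.add g3x3x6p37 |>.add g3x3x6p38)
  |>.add (Cov2.zero |>.add g3x3x6p39 |>.add g3x3x6p40)
  |>.add (Cov2.zero |>.add g3x3x6p41 |>.add g3x3x6p42)
  |>.add (Cov2.zero |>.add g3x3x6p43 |>.add g3x3x6p44 |>.add g3x3x6p45 |>.add g3x3x6p46)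
  |>.add (Cov2.zero |>.add g3x3x6p47)
  |>.add (Cov2.zero |>.add g3x3x6p48 |>.add g3x3x6p49 |>.add g3x3x6p50 |>.add g3x3x6p51)
  |>.add (Cov2.zero |>.add g3x3x6p52)

theorem g3x3x7cov : Cov1 g3x3x7 g3x3x7top 4096 :=
  Cov1.zero
  |>.add (Cov2.zero |>.add g3x3x7p0)
  |>.add (Cov2.zero |>.add g3x3x7p1)
  |>.add (Cov2.zero |>.add g3x3x7p2 |>.add g3x3x7p3)
  |>.add (Cov2.zero |>.add g3x3x7p4)
  |>.add (Cov2.zero |>.add g3x3x7p5)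
  |>.add (Cov2.zero |>.add g3x3x7p6)
  |>.add (Cov2.zero |>.add g3x3x7p7)
  |>.add (Cov2.zero |>.add g3x3x7p8)
  |>.add (Cov2.zero |>.add g3x3x7p9)
  |>.add (Cov2.zero |>.add g3x3x7p10 |>.add g3x3x7p11)
  |>.add (Cov2.zero |>.add g3x3x7p12)

theorem g3x4x4cov : Cov1 g3x4x4 g3x4x4top 4096 :=
  Cov1.zero
  |>.add (Cov2.zero |>.add g3x4x4p0)
  |>.add (Cov2.zero |>.add g3x4x4p1)
  |>.add (Cov2.zero |>.add g3x4x4p2)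
  |>.add (Cov2.zero |>.add g3x4x4p3)
  |>.add (Cov2.zero |>.add g3x4x4p4 |>.add g3x4x4p5)
  |>.add (Cov2.zero |>.add g3x4x4p6)
  |>.add (Cov2.zero |>.add g3x4x4p7)
  |>.add (Cov2.zero |>.add g3x4x4p8)
  |>.add (Cov2.zero |>.add g3x4x4p9)
  |>.add (Cov2.zero |>.add g3x4x4p10 |>.add g3x4x4p11)
  |>.add (Cov2.zero |>.add g3x4x4p12)
  |>.add (Cov2.zero |>.add g3x4x4p13 |>.add g3x4x4p14)
  |>.add (Cov2.zero |>.add g3x4x4p15 |>.add g3x4x4p16)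
  |>.add (Cov2.zero |>.add g3x4x4p17)
  |>.add (Cov2.zero |>.add g3x4x4p18 |>.add g3x4x4p19 |>.add g3x4x4p20)

theorem g3x4x5cov : Cov1 g3x4x5 g3x4x5top 4096 :=
  Cov1.zero
  |>.add (Cov2.zero |>.add g3x4x5p0)
  |>.add (Cov2.zero |>.add g3x4x5p1)
  |>.add (Cov2.zero |>.add g3x4x5p2)
  |>.add (Cov2.zero |>.add g3x4x5p3)
  |>.add (Cov2.zero |>.add g3x4x5p4 |>.add g3x4x5p5)
  |>.add (Cov2.zero |>.add g3x4x5p6)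
  |>.add (Cov2.zero |>.add g3x4x5p7 |>.add g3x4x5p8)
  |>.add (Cov2.zero |>.add g3x4x5p9)
  |>.add (Cov2.zero |>.add g3x4x5p10)
  |>.add (Cov2.zero |>.add g3x4x5p11)
  |>.add (Cov2.zero |>.add g3x4x5p12 |>.add g3x4x5p13 |>.add g3x4x5p14)
  |>.add (Cov2.zero |>.add g3x4x5p15)
  |>.add (Cov2.zero |>.add g3x4x5p16 |>.add g3x4x5p17 |>.add g3x4x5p18)
  |>.add (Cov2.zero |>.add g3x4x5p19 |>.add g3x4x5p20)

theorem g3x4x6cov : Cov1 g3x4x6 g3x4x6top 4096 :=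
  Cov1.zero
  |>.add (Cov2.zero |>.add g3x4x6p0)
  |>.add (Cov2.zero |>.add g3x4x6p1)
  |>.add (Cov2.zero |>.add g3x4x6p2)
  |>.add (Cov2.zero |>.add g3x4x6p3)

theorem g3x5x5cov : Cov1 g3x5x5 g3x5x5top 4096 :=
  Cov1.zero
  |>.add (Cov2.zero |>.add g3x5x5p0)
  |>.add (Cov2.zero |>.add g3x5x5p1)
  |>.add (Cov2.zero |>.add g3x5x5p2)
  |>.add (Cov2.zero |>.add g3x5x5p3)
  |>.add (Cov2.zero |>.add g3x5x5p4)
  |>.add (Cov2.zero |>.add g3x5x5p5)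

theorem g4x4x4cov : Cov1 g4x4x4 g4x4x4top 4096 :=
  Cov1.zero
  |>.add (Cov2.zero |>.add g4x4x4p0)
  |>.add (Cov2.zero |>.add g4x4x4p1)
  |>.add (Cov2.zero |>.add g4x4x4p2)
  |>.add (Cov2.zero |>.add g4x4x4p3)
  |>.add (Cov2.zero |>.add g4x4x4p4)

theorem g4x4x5cov : Cov1 g4x4x5 g4x4x5top 4096 :=
  Cov1.zero
  |>.add (Cov2.zero |>.add g4x4x5p0 |>.add g4x4x5p1 |>.add g4x4x5p2)
  |>.add (Cov2.zero |>.add g4x4x5p3)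
  |>.add (Cov2.zero |>.add g4x4x5p4)
  |>.add (Cov2.zero |>.add g4x4x5p5)
  |>.add (Cov2.zero |>.add g4x4x5p6)

theorem g4x5x5cov : Cov1 g4x5x5 g4x5x5top 4096 :=
  Cov1.zero
  |>.add (Cov2.zero |>.add g4x5x5p0)
  |>.add (Cov2.zero |>.add g4x5x5p1)

end Pool.Agent.Lib.MP_4d22c1_co.Chk
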