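import Pool.Agent.Lib.MP_4d22c1_co.Reduce
import Pool.Agent.Lib.MP_4d22c1_co.Cert.Cover

/-!
No box of volume at most 503 has a non-trivial incomparable tiling. This file is generated.
-/

namespace Pool.Agent.Lib.MP_4d22c1_co.Chk

theorem g2x2x2no : NoT 2 2 2 62 := noT_of g2x2x2v1 g2x2x2v2 g2x2x2v3 g2x2x2v4 g2x2x2cov
theorem g2x2x3no : NoT 2 2 3 41 := noT_of g2x2x3v1 g2x2x3v2 g2x2x3v3 g2x2x3v4 g2x2x3cov
theorem g2x2x4no : NoT 2 2 4 31 := noT_of g2x2x4v1 g2x2x4v2 g2x2x4v3 g2x2x4v4 g2x2x4cov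
theorem g2x2x5no : NoT 2 2 5 25 := noT_of g2x2x5v1 g2x2x5v2 g2x2x5v3 g2x2x5v4 g2x2x5cov
theorem g2x2x6no : NoT 2 2 6 20 := noT_of g2x2x6v1 g2x2x6v2 g2x2x6v3 g2x2x6v4 g2x2x6cov
theorem g2x2x7no : NoT 2 2 7 17 := noT_of g2x2x7v1 g2x2x7v2 g2x2x7v3 g2x2x7v4 g2x2x7cov
theorem g2x2x8no : NoT 2 2 8 15 := noT_of g2x2x8v1 g2x2x8v2 g2x2x8v3 g2x2x8v4 g2x2x8cov
theorem g2x2x9no : NoT 2 2 9 13 := noT_of g2x2x9v1 g2x2x9v2 g2x2x9v3 g2x2x9v4 g2x2x9cov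
theorem g2x2x10no : NoT 2 2 10 12 := noT_of g2x2x10v1 g2x2x10v2 g2x2x10v3 g2x2x10v4 g2x2x10cov
theorem g2x2x11no : NoT 2 2 11 11 := noT_of g2x2x11v1 g2x2x11v2 g2x2x11v3 g2x2x11v4 g2x2x11cov
theorem g2x3x3no : NoT 2 3 3 27 := noT_of g2x3x3v1 g2x3x3v2 g2x3x3v3 g2x3x3v4 g2x3x3cov
theorem g2x3x4no : NoT 2 3 4 20 := noT_of g2x3x4v1 g2x3x4v2 g2x3x4v3 g2x3x4v4 g2x3x4cov
theorem g2x3x5no : NoT 2 3 5 16 := noT_of g2x3x5v1 g2x3x5v2 g2x3x5v3 g2x3x5v4 g2x3x5cov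
theorem g2x3x6no : NoT 2 3 6 13 := noT_of g2x3x6v1 g2x3x6v2 g2x3x6v3 g2x3x6v4 g2x3x6cov
theorem g2x3x7no : NoT 2 3 7 11 := noT_of g2x3x7v1 g2x3x7v2 g2x3x7v3 g2x3x7v4 g2x3x7cov
theorem g2x3x8no : NoT 2 3 8 10 := noT_of g2x3x8v1 g2x3x8v2 g2x3x8v3 g2x3x8v4 g2x3x8cov
theorem g2x3x9no : NoT 2 3 9 9 := noT_of g2x3x9v1 g2x3x9v2 g2x3x9v3 g2x3x9v4 g2x3x9cov
theorem g2x4x4no : NoT 2 4 4 15 := noT_of g2x4x4v1 g2x4x4v2 g2x4x4v3 g2x4x4v4 g2x4x4cov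
theorem g2x4x5no : NoT 2 4 5 12 := noT_of g2x4x5v1 g2x4x5v2 g2x4x5v3 g2x4x5v4 g2x4x5cov
theorem g2x4x6no : NoT 2 4 6 10 := noT_of g2x4x6v1 g2x4x6v2 g2x4x6v3 g2x4x6v4 g2x4x6cov
theorem g2x4x7no : NoT 2 4 7 8 := noT_of g2x4x7v1 g2x4x7v2 g2x4x7v3 g2x4x7v4 g2x4x7cov
theorem g2x5x5no : NoT 2 5 5 10 := noT_of g2x5x5v1 g2x5x5v2 g2x5x5v3 g2x5x5v4 g2x5x5cov
theorem g2x5x6no : NoT 2 5 6 8 := noT_of g2x5x6v1 g2x5x6v2 g2x5x6v3 g2x5x6v4 g2x5x6cov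
theorem g2x5x7no : NoT 2 5 7 7 := noT_of g2x5x7v1 g2x5x7v2 g2x5x7v3 g2x5x7v4 g2x5x7cov
theorem g2x6x6no : NoT 2 6 6 6 := noT_of g2x6x6v1 g2x6x6v2 g2x6x6v3 g2x6x6v4 g2x6x6cov
theorem g3x3x3no : NoT 3 3 3 18 := noT_of g3x3x3v1 g3x3x3v2 g3x3x3v3 g3x3x3v4 g3x3x3cov
theorem g3x3x4no : NoT 3 3 4 13 := noT_of g3x3x4v1 g3x3x4v2 g3x3x4v3 g3x3x4v4 g3x3x4cov
theorem g3x3x5no : NoT 3 3 5 11 := noT_of g3x3x5v1 g3x3x5v2 g3x3x5v3 g3x3x5v4 g3x3x5cov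
theorem g3x3x6no : NoT 3 3 6 9 := noT_of g3x3x6v1 g3x3x6v2 g3x3x6v3 g3x3x6v4 g3x3x6cov
theorem g3x3x7no : NoT 3 3 7 7 := noT_of g3x3x7v1 g3x3x7v2 g3x3x7v3 g3x3x7v4 g3x3x7cov
theorem g3x4x4no : NoT 3 4 4 10 := noT_of g3x4x4v1 g3x4x4v2 g3x4x4v3 g3x4x4v4 g3x4x4cov
theorem g3x4x5no : NoT 3 4 5 8 := noT_of g3x4x5v1 g3x4x5v2 g3x4x5v3 g3x4x5v4 g3x4x5cov
theorem g3x4x6no : NoT 3 4 6 6 := noT_of g3x4x6v1 g3x4x6v2 g3x4x6v3 g3x4x6v4 g3x4x6cov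
theorem g3x5x5no : NoT 3 5 5 6 := noT_of g3x5x5v1 g3x5x5v2 g3x5x5v3 g3x5x5v4 g3x5x5cov
theorem g4x4x4no : NoT 4 4 4 7 := noT_of g4x4x4v1 g4x4x4v2 g4x4x4v3 g4x4x4v4 g4x4x4cov
theorem g4x4x5no : NoT 4 4 5 6 := noT_of g4x4x5v1 g4x4x5v2 g4x4x5v3 g4x4x5v4 g4x4x5cov
theorem g4x5x5no : NoT 4 5 5 5 := noT_of g4x5x5v1 g4x5x5v2 g4x5x5v3 g4x5x5v4 g4x5x5cov

theorem no_small (a b c d : ℕ) (h1 : 2 ≤ a) (h2 : a ≤ b) (h3 : b ≤ c) (h4 : c ≤ d)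
    (h : a * b * c * d ≤ 503) (T : Til ![a, b, c, d]) : False := by
  have hc : c ≤ 11 := by
    by_contra hc
    have : 2 * 2 * 12 * 12 ≤ a * b * c * d :=
      Nat.mul_le_mul (Nat.mul_le_mul (Nat.mul_le_mul h1 (by omega)) (by omega)) (by omega)
    omega
  have hb : b ≤ 6 := by
    by_contra hc
    have : 2 * 7 * 7 * 7 ≤ a * b * c * d :=
      Nat.mul_le_mul (Nat.mul_le_mul (Nat.mul_le_mul h1 (by omega)) (by omega)) (by omega)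
    omega
  have ha : a ≤ 4 := by
    by_contra hc
    have : 5 * 5 * 5 * 5 ≤ a * b * c * d :=
      Nat.mul_le_mul (Nat.mul_le_mul (Nat.mul_le_mul (by omega) (by omega)) (by omega)) (by omega)
    omega
  interval_cases a <;> interval_cases b <;> interval_cases c <;> first
    | omega
    | exact g2x2x2no d h4 (by omega) T
    | exact g2x2x3no d h4 (by omega) T
    | exact g2x2x4no d h4 (by omega) T
    | exact g2x2x5no d h4 (by omega) T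
    | exact g2x2x6no d h4 (by omega) T
    | exact g2x2x7no d h4 (by omega) T
    | exact g2x2x8no d h4 (by omega) T
    | exact g2x2x9no d h4 (by omega) T
    | exact g2x2x10no d h4 (by omega) T
    | exact g2x2x11no d h4 (by omega) T
    | exact g2x3x3no d h4 (by omega) T
    | exact g2x3x4no d h4 (by omega) T
    | exact g2x3x5no d h4 (by omega) T
    | exact g2x3x6no d h4 (by omega) T
    | exact g2x3x7no d h4 (by omega) T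
    | exact g2x3x8no d h4 (by omega) T
    | exact g2x3x9no d h4 (by omega) T
    | exact g2x4x4no d h4 (by omega) T
    | exact g2x4x5no d h4 (by omega) T
    | exact g2x4x6no d h4 (by omega) T
    | exact g2x4x7no d h4 (by omega) T
    | exact g2x5x5no d h4 (by omega) T
    | exact g2x5x6no d h4 (by omega) T
    | exact g2x5x7no d h4 (by omega) T
    | exact g2x6x6no d h4 (by omega) T
    | exact g3x3x3no d h4 (by omega) T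
    | exact g3x3x4no d h4 (by omega) T
    | exact g3x3x5no d h4 (by omega) T
    | exact g3x3x6no d h4 (by omega) T
    | exact g3x3x7no d h4 (by omega) T
    | exact g3x4x4no d h4 (by omega) T
    | exact g3x4x5no d h4 (by omega) T
    | exact g3x4x6no d h4 (by omega) T
    | exact g3x5x5no d h4 (by omega) T
    | exact g4x4x4no d h4 (by omega) T
    | exact g4x4x5no d h4 (by omega) T
    | exact g4x5x5no d h4 (by omega) T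

end Pool.Agent.Lib.MP_4d22c1_co.Chk
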